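import Mathlib
import Pool.Agent.helper76.BQ.TDefs
import Pool.Agent.helper76.BQ.BDefs
import Pool.Agent.helper76.BQ.BGood

/-!
# BQ, part B, module B5b: the exponent is the quadratic form of the Siegel matrix
-/

open Matrix Complex

namespace Pool.Agent.helper76.BQ

theorem B5b_bil_sum {g : ℕ} (D : ℂ) (c : Fin g → ℂ) (u : Fin g → Fin 3 → ℂ) (y : Fin 3 → ℂ) :
    bil D (∑ i, c i • u i) y = ∑ i, c i * bil D (u i) y := by
  simp only [bil, Finset.sum_apply, Pi.smul_apply, smul_eq_mul, Finset.sum_mul, Finset.mul_sum,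
    ← Finset.sum_add_distrib, ← Finset.sum_sub_distrib]
  exact Finset.sum_congr rfl fun i _ => by ring

theorem B5b_bil_comm (D : ℂ) (x y : Fin 3 → ℂ) : bil D x y = bil D y x := by
  simp only [bil]; ring

theorem B5b_ss_sum {g : ℕ} (D : ℝ) (c : Fin g → ℂ) (u : Fin g → Fin 3 → ℂ) (z : Fin 2 → ℂ) :
    ss D (∑ i, c i • u i) z = ∑ i, c i * ss D (u i) z := by
  simp only [ss, B5b_bil_sum, Finset.sum_div]
  exact Finset.sum_congr rfl fun i _ => by ring

theorem B5b_qz_comm (D : ℝ) (x y : Fin 3 → ℂ) (z : Fin 2 → ℂ) : qz D x y z = qz D y x z := by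
  simp only [qz, B5b_bil_comm (D : ℂ) x y]; ring

theorem B5b_qz_sum {g : ℕ} (D : ℝ) (c : Fin g → ℂ) (u : Fin g → Fin 3 → ℂ) (y : Fin 3 → ℂ)
    (z : Fin 2 → ℂ) : qz D (∑ i, c i • u i) y z = ∑ i, c i * qz D (u i) y z := by
  simp only [qz, B5b_bil_sum, B5b_ss_sum, Finset.sum_mul, Finset.mul_sum,
    ← Finset.sum_add_distrib]
  exact Finset.sum_congr rfl fun i _ => by ring

variable {F : Type} [Field F] [NumberField F]

theorem B5b_pl {k g : ℕ} (bas : Fin g → Fin k → Fin 3 → F) (c : Fin g → ℚ) (v : F →+* ℝ)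
    (l : Fin k) : pl v ((∑ i, (c i : F) • bas i) l) = ∑ i, (c i : ℂ) • pl v (bas i l) := by
  funext a
  simp only [pl, Finset.sum_apply, Pi.smul_apply, smul_eq_mul, map_sum, map_mul, map_ratCast,
    Complex.ofReal_sum, Complex.ofReal_mul, Complex.ofReal_ratCast]

theorem B5b_qv {k g : ℕ} (d : F) (v0 : F →+* ℝ) (bas : Fin g → Fin k → Fin 3 → F)
    (c : Fin g → ℚ) (v : F →+* ℝ) (l l' : Fin k) (z : Fin 2 → ℂ) :
    qv d v0 v ((∑ i, (c i : F) • bas i) l) ((∑ i, (c i : F) • bas i) l') z =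
      ∑ i, ∑ j, (c i : ℂ) * (c j : ℂ) * qv d v0 v (bas i l) (bas j l') z := by
  unfold qv
  split_ifs with h
  · rw [B5b_pl, B5b_pl, B5b_qz_sum]
    refine Finset.sum_congr rfl fun i _ => ?_
    rw [B5b_qz_comm, B5b_qz_sum, Finset.mul_sum]
    refine Finset.sum_congr rfl fun j _ => ?_
    rw [B5b_qz_comm]; ring
  · rw [B5b_pl, B5b_pl, B5b_bil_sum]
    refine Finset.sum_congr rfl fun i _ => ?_
    rw [B5b_bil_comm, B5b_bil_sum, Finset.mul_sum]
    refine Finset.sum_congr rfl fun j _ => ?_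
    rw [B5b_bil_comm]; ring

/-- B5b -/
theorem expo_eq_qf {κ d : F} {v0 : F →+* ℝ} {k g : ℕ} (bas : Fin g → Fin k → Fin 3 → F)
    (M : (F →+* ℝ) → Matrix (Fin k) (Fin k) ℝ) (z : Fin 2 → ℂ) (c : Fin g → ℚ) :
    expo κ d v0 M (∑ i, (c i : F) • bas i) z = qf (Zm κ d v0 bas M z) (fun i => (c i : ℂ)) := by
  unfold expo qf Zm
  simp only [B5b_qv, Finset.mul_sum, Finset.sum_mul]
  rw [Finset.sum_comm' (t' := Finset.univ) (s' := fun _ => Finset.univ) (by simp)]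
  have h1 : ∀ G : (F →+* ℝ) → Fin k → Fin k → Fin g → Fin g → ℂ,
      ∑ l, ∑ v, ∑ l', ∑ i, ∑ j, G v l l' i j = ∑ i, ∑ j, ∑ v, ∑ l, ∑ l', G v l l' i j := by
    intro G
    calc ∑ l, ∑ v, ∑ l', ∑ i, ∑ j, G v l l' i j
        = ∑ v, ∑ l, ∑ l', ∑ i, ∑ j, G v l l' i j := Finset.sum_comm
      _ = ∑ v, ∑ l, ∑ i, ∑ l', ∑ j, G v l l' i j := by
          refine Finset.sum_congr rfl fun v _ => Finset.sum_congr rfl fun l _ => Finset.sum_comm
      _ = ∑ v, ∑ i, ∑ l, ∑ l', ∑ j, G v l l' i j := by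
          refine Finset.sum_congr rfl fun v _ => Finset.sum_comm
      _ = ∑ i, ∑ v, ∑ l, ∑ l', ∑ j, G v l l' i j := Finset.sum_comm
      _ = ∑ i, ∑ v, ∑ l, ∑ j, ∑ l', G v l l' i j := by
          refine Finset.sum_congr rfl fun i _ => Finset.sum_congr rfl fun v _ =>
            Finset.sum_congr rfl fun l _ => Finset.sum_comm
      _ = ∑ i, ∑ v, ∑ j, ∑ l, ∑ l', G v l l' i j := by
          refine Finset.sum_congr rfl fun i _ => Finset.sum_congr rfl fun v _ => Finset.sum_comm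
      _ = ∑ i, ∑ j, ∑ v, ∑ l, ∑ l', G v l l' i j := by
          refine Finset.sum_congr rfl fun i _ => Finset.sum_comm
  rw [h1]
  refine Finset.sum_congr rfl fun i _ => Finset.sum_congr rfl fun j _ =>
    Finset.sum_congr rfl fun v _ => Finset.sum_congr rfl fun l _ =>
    Finset.sum_congr rfl fun l' _ => ?_
  ring

end Pool.Agent.helper76.BQ
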