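import Pool.Agent.helper28.BQ.SpecK

/-!
# BQ, part K, module GP: elements of `Gam` as pairs of matrices over `F`
-/

open scoped BigOperators ComplexConjugate Matrix

namespace BQ

/-- evaluation of `E = F[s]`, `s ^ 2 = - kap`, at the place `v`, `s = - I * sqrt (v kap)` -/
noncomputable def GP_phi {F : Type} [Field F] (kap : F) (v : F →+* ℝ) (hv : 0 ≤ v kap) :
    QuadraticAlgebra F (-kap) 0 →+* ℂ where
  toFun z := ((v z.re : ℝ) : ℂ) - Complex.I * (Real.sqrt (v kap) : ℂ) * ((v z.im : ℝ) : ℂ)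
  map_one' := by
    show ((v (1 : F) : ℝ) : ℂ) - Complex.I * (Real.sqrt (v kap) : ℂ) * ((v (0 : F) : ℝ) : ℂ) = 1
    simp
  map_zero' := by
    show ((v (0 : F) : ℝ) : ℂ) - Complex.I * (Real.sqrt (v kap) : ℂ) * ((v (0 : F) : ℝ) : ℂ) = 0
    simp
  map_add' := by
    intro x y
    simp only [QuadraticAlgebra.re_add, QuadraticAlgebra.im_add, map_add, Complex.ofReal_add]
    ring
  map_mul' := by
    intro x y
    have h1 : ((Real.sqrt (v kap) : ℝ) : ℂ) ^ 2 = ((v kap : ℝ) : ℂ) := by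
      rw [← Complex.ofReal_pow, Real.sq_sqrt hv]
    simp only [QuadraticAlgebra.re_mul, QuadraticAlgebra.im_mul, map_add, map_mul, map_neg,
      map_zero, Complex.ofReal_add, Complex.ofReal_mul, Complex.ofReal_neg, Complex.ofReal_zero]
    linear_combination (Complex.I ^ 2 * ((v x.im : ℝ) : ℂ) * ((v y.im : ℝ) : ℂ)) * (-h1) -
      ((v kap : ℝ) : ℂ) * ((v x.im : ℝ) : ℂ) * ((v y.im : ℝ) : ℂ) * Complex.I_sq

theorem GP_phi_apply {F : Type} [Field F] (kap : F) (v : F →+* ℝ) (hv : 0 ≤ v kap)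
    (z : QuadraticAlgebra F (-kap) 0) :
    GP_phi kap v hv z =
      ((v z.re : ℝ) : ℂ) - Complex.I * (Real.sqrt (v kap) : ℂ) * ((v z.im : ℝ) : ℂ) := rfl

/-- independence of `1` and `I * sqrt (v kap)` over `F` -/
theorem GP_indep {F : Type} [Field F] (kap : F) (v : F →+* ℝ) (hv : 0 < v kap) (a c a' c' : F)
    (h : ((v a : ℝ) : ℂ) - Complex.I * (Real.sqrt (v kap) : ℂ) * ((v c : ℝ) : ℂ) =
      ((v a' : ℝ) : ℂ) - Complex.I * (Real.sqrt (v kap) : ℂ) * ((v c' : ℝ) : ℂ)) :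
    a = a' ∧ c = c' := by
  have hs : 0 < Real.sqrt (v kap) := Real.sqrt_pos.2 hv
  have hre := congrArg Complex.re h
  have him := congrArg Complex.im h
  simp at hre him
  refine ⟨v.injective hre, ?_⟩
  rcases him with him | him
  · exact v.injective him
  · exact absurd him hs.ne'

/-- the matrix over `E` -/
def GP_mat {F : Type} [Field F] (kap : F) (A C : Matrix (Fin 3) (Fin 3) F) :
    Matrix (Fin 3) (Fin 3) (QuadraticAlgebra F (-kap) 0) := Matrix.of fun i j => ⟨A i j, C i j⟩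

theorem GP_ev {F : Type} [Field F] (kap : F) (v : F →+* ℝ) (hv : 0 ≤ v kap)
    (A C : Matrix (Fin 3) (Fin 3) F) :
    ev kap v A C = (GP_phi kap v hv).mapMatrix (GP_mat kap A C) := by
  ext i j
  rfl

theorem GP_det {F : Type} [Field F] (kap : F) (v : F →+* ℝ) (hv : 0 ≤ v kap)
    (A C : Matrix (Fin 3) (Fin 3) F) :
    (ev kap v A C).det = GP_phi kap v hv (GP_mat kap A C).det := by
  rw [GP_ev kap v hv, RingHom.map_det]

/-- the determinant is `1` at one place iff at all places -/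
theorem GP_det_one {F : Type} [Field F] (kap : F) (v v' : F →+* ℝ) (hv : 0 < v kap)
    (hv' : 0 < v' kap) (A C : Matrix (Fin 3) (Fin 3) F) (h : (ev kap v A C).det = 1) :
    (ev kap v' A C).det = 1 := by
  rw [GP_det kap v hv.le] at h
  rw [GP_det kap v' hv'.le]
  rw [GP_phi_apply] at h
  have h2 : ((v (GP_mat kap A C).det.re : ℝ) : ℂ) -
      Complex.I * (Real.sqrt (v kap) : ℂ) * ((v (GP_mat kap A C).det.im : ℝ) : ℂ) =
      ((v (1 : F) : ℝ) : ℂ) - Complex.I * (Real.sqrt (v kap) : ℂ) * ((v (0 : F) : ℝ) : ℂ) := by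
    rw [h]; simp
  obtain ⟨h3, h4⟩ := GP_indep kap v hv _ _ _ _ h2
  rw [GP_phi_apply, h3, h4]
  simp

/-- entries of the hermitian Gram matrix at the place `v` -/
theorem GP_unit_apply {F : Type} [Field F] (kap d : F) (v : F →+* ℝ) (hv : 0 ≤ v kap)
    (A C : Matrix (Fin 3) (Fin 3) F) (i j : Fin 3) :
    ((ev kap v A C)ᴴ * Hm (v d) * ev kap v A C) i j =
      ((v ((Aᵀ * HF d * A + kap • (Cᵀ * HF d * C)) i j) : ℝ) : ℂ) -
      Complex.I * (Real.sqrt (v kap) : ℂ) *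
        ((v ((Aᵀ * HF d * C - Cᵀ * HF d * A) i j) : ℝ) : ℂ) := by
  have h1 : ((Real.sqrt (v kap) : ℝ) : ℂ) ^ 2 = ((v kap : ℝ) : ℂ) := by
    rw [← Complex.ofReal_pow, Real.sq_sqrt hv]
  have hL : ((ev kap v A C)ᴴ * Hm (v d) * ev kap v A C) i j =
      ∑ k, (starRingEnd ℂ) (ev kap v A C k i) * (![1, 1, -((v d : ℝ) : ℂ)] k) *
        ev kap v A C k j := by
    rw [Matrix.mul_apply]
    refine Finset.sum_congr rfl fun k _ => ?_
    rw [Hm, Matrix.mul_diagonal, Matrix.conjTranspose_apply]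
    rfl
  have hG : ∀ (M N : Matrix (Fin 3) (Fin 3) F), (Mᵀ * HF d * N) i j =
      ∑ k, M k i * (![1, 1, -d] k) * N k j := by
    intro M N
    rw [Matrix.mul_apply]
    refine Finset.sum_congr rfl fun k _ => ?_
    rw [HF, Matrix.mul_diagonal, Matrix.transpose_apply]
  rw [hL, Matrix.add_apply, Matrix.sub_apply, Matrix.smul_apply, hG, hG, hG, hG]
  simp only [Fin.sum_univ_three, ev, Matrix.of_apply, Matrix.cons_val_zero, Matrix.cons_val_one,
    Matrix.cons_val_two, Matrix.head_cons, Matrix.tail_cons, map_sub, map_mul,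
    Complex.conj_I,
    Complex.conj_ofReal, smul_eq_mul, map_add, map_neg, map_one, Complex.ofReal_add,
    Complex.ofReal_sub, Complex.ofReal_mul, Complex.ofReal_neg, Complex.ofReal_one]
  linear_combination
    (((v (C 0 i) : ℝ) : ℂ) * ((v (C 0 j) : ℝ) : ℂ) + ((v (C 1 i) : ℝ) : ℂ) * ((v (C 1 j) : ℝ) : ℂ)
      - ((v d : ℝ) : ℂ) * ((v (C 2 i) : ℝ) : ℂ) * ((v (C 2 j) : ℝ) : ℂ)) *
      (h1 - ((Real.sqrt (v kap) : ℝ) : ℂ) ^ 2 * Complex.I_sq)

/-- unitarity at a place in terms of matrices over `F` -/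
theorem GP_unit_of {F : Type} [Field F] (kap d : F) (v : F →+* ℝ) (hv : 0 ≤ v kap)
    (A C : Matrix (Fin 3) (Fin 3) F)
    (h1 : Aᵀ * HF d * A + kap • (Cᵀ * HF d * C) = HF d) (h2 : Aᵀ * HF d * C = Cᵀ * HF d * A) :
    (ev kap v A C)ᴴ * Hm (v d) * ev kap v A C = Hm (v d) := by
  ext i j
  rw [GP_unit_apply kap d v hv, h1, h2, sub_self, Matrix.zero_apply, map_zero, Complex.ofReal_zero,
    mul_zero, sub_zero]
  rw [HF, Hm, Matrix.diagonal_apply, Matrix.diagonal_apply]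
  split_ifs with hij
  · fin_cases i <;> simp
  · simp

theorem GP_of_unit {F : Type} [Field F] (kap d : F) (v : F →+* ℝ) (hv : 0 < v kap)
    (A C : Matrix (Fin 3) (Fin 3) F)
    (h : (ev kap v A C)ᴴ * Hm (v d) * ev kap v A C = Hm (v d)) :
    Aᵀ * HF d * A + kap • (Cᵀ * HF d * C) = HF d ∧ Aᵀ * HF d * C = Cᵀ * HF d * A := by
  have key : ∀ i j, (Aᵀ * HF d * A + kap • (Cᵀ * HF d * C)) i j = HF d i j ∧
      (Aᵀ * HF d * C - Cᵀ * HF d * A) i j = 0 := by
    intro i j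
    refine GP_indep kap v hv _ _ _ _ ?_
    rw [← GP_unit_apply kap d v hv.le, h, map_zero, Complex.ofReal_zero, mul_zero, sub_zero]
    rw [HF, Hm, Matrix.diagonal_apply, Matrix.diagonal_apply]
    split_ifs with hij
    · fin_cases i <;> simp
    · simp
  refine ⟨?_, ?_⟩
  · ext i j
    exact (key i j).1
  · have h3 : Aᵀ * HF d * C - Cᵀ * HF d * A = 0 := by
      ext i j
      exact (key i j).2
    exact sub_eq_zero.1 h3

theorem GP (hOE : OEm_stmt) : GP_stmt := by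
  intro F _ _ kap d v0 hyp g
  obtain ⟨hmem, hinj, -, -⟩ := hOE F kap v0 hyp.kapInt (hyp.kapPos v0)
  constructor
  · rintro ⟨hg, hg'⟩
    choose A C hA hC hAC using fun i j => (hmem _).1 (hg i j)
    have hev : (g : Matrix (Fin 3) (Fin 3) ℂ) = ev kap v0 (Matrix.of A) (Matrix.of C) := by
      ext i j
      exact hAC i j
    obtain ⟨h1, h2⟩ := GP_of_unit kap d v0 (hyp.kapPos v0) (Matrix.of A) (Matrix.of C)
      (by rw [← hev]; exact hg')
    refine ⟨Matrix.of A, Matrix.of C, fun i j => hA i j, fun i j => hC i j, hev, h1, h2, ?_⟩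
    intro v
    refine ⟨?_, GP_unit_of kap d v (hyp.kapPos v).le _ _ h1 h2⟩
    refine GP_det_one kap v0 v (hyp.kapPos v0) (hyp.kapPos v) _ _ ?_
    rw [← hev]
    exact g.2
  · rintro ⟨A, C, hA, hC, hev, h1, h2, hall⟩
    refine ⟨fun i j => ?_, ?_⟩
    · rw [hev]
      exact (hmem _).2 ⟨A i j, C i j, hA i j, hC i j, rfl⟩
    · rw [hev]
      exact (hall v0).2

end BQ
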